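import Mathlib
import Pool.Agent.L5helper5.SP.Swap

/-!
# Moving a unit of weight towards the small summation variables increases a multiple zeta value
-/

set_option autoImplicit false

namespace Pool.Agent.L5helper5.PM

open Filter Topology
open Pool.Agent.H447R2.MZ (H H_nil H_cons H_cons_zero H_cons_succ H_nonneg H_mono Adm val tendsto_H H_le_val)
open Pool.Agent.L5helper5.SP (H_pos_of)

/-- the difference of the truncated sums -/
noncomputable def dt (a b : ℕ) (p q : List ℕ) (N : ℕ) : ℝ := H (p ++ a :: (b + 1) :: q) N - H (p ++ (a + 1) :: b :: q) N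

lemma dt_step (a b x : ℕ) (p q : List ℕ) (N : ℕ) :
    dt a b (x :: p) q N = ∑ n ∈ Finset.range N, (((n + 1 : ℕ) : ℝ) ^ x)⁻¹ * dt a b p q n := by
  rw [dt, List.cons_append, List.cons_append, H_cons, H_cons, ← Finset.sum_sub_distrib]
  refine Finset.sum_congr rfl fun n _ => ?_
  rw [dt]
  push_cast
  ring

/-- the weight -/
noncomputable def wt (a b n m : ℕ) : ℝ := (((n + 1 : ℕ) : ℝ) ^ a)⁻¹ * (((m + 1 : ℕ) : ℝ) ^ (b + 1))⁻¹ -
        (((n + 1 : ℕ) : ℝ) ^ (a + 1))⁻¹ * (((m + 1 : ℕ) : ℝ) ^ b)⁻¹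

lemma dt_nil (a b : ℕ) (q : List ℕ) (N : ℕ) :
    dt a b [] q N = ∑ n ∈ Finset.range N, ∑ m ∈ Finset.range n, wt a b n m * H q m := by
  rw [dt, List.nil_append, List.nil_append, H_cons, H_cons, ← Finset.sum_sub_distrib]
  refine Finset.sum_congr rfl fun n _ => ?_
  rw [H_cons, H_cons, Finset.mul_sum, Finset.mul_sum, ← Finset.sum_sub_distrib]
  refine Finset.sum_congr rfl fun m _ => ?_
  rw [wt]
  push_cast
  ring

lemma wt_pos (a b : ℕ) {m n : ℕ} (h : m < n) : (0 : ℝ) < wt a b n m := by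
  have hn : (0 : ℝ) < ((n + 1 : ℕ) : ℝ) := by positivity
  have hm : (0 : ℝ) < ((m + 1 : ℕ) : ℝ) := by positivity
  have hmn : ((m + 1 : ℕ) : ℝ) < ((n + 1 : ℕ) : ℝ) := by exact_mod_cast (by omega : m + 1 < n + 1)
  rw [wt, sub_pos, ← mul_inv, ← mul_inv]
  apply inv_strictAnti₀ (by positivity)
  have h1 : (0 : ℝ) < ((n + 1 : ℕ) : ℝ) ^ a * ((m + 1 : ℕ) : ℝ) ^ b := by positivity
  calc ((n + 1 : ℕ) : ℝ) ^ a * ((m + 1 : ℕ) : ℝ) ^ (b + 1)
      = (((n + 1 : ℕ) : ℝ) ^ a * ((m + 1 : ℕ) : ℝ) ^ b) * ((m + 1 : ℕ) : ℝ) := by ring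
    _ < (((n + 1 : ℕ) : ℝ) ^ a * ((m + 1 : ℕ) : ℝ) ^ b) * ((n + 1 : ℕ) : ℝ) :=
        mul_lt_mul_of_pos_left hmn h1
    _ = ((n + 1 : ℕ) : ℝ) ^ (a + 1) * ((m + 1 : ℕ) : ℝ) ^ b := by ring

lemma dt_nonneg (a b : ℕ) (p q : List ℕ) : ∀ N, 0 ≤ dt a b p q N := by
  induction p with
  | nil =>
    intro N
    rw [dt_nil]
    refine Finset.sum_nonneg fun n _ => Finset.sum_nonneg fun m hm => ?_
    exact mul_nonneg (wt_pos a b (Finset.mem_range.1 hm)).le (H_nonneg q m)
  | cons x p ih =>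
    intro N
    rw [dt_step]
    exact Finset.sum_nonneg fun n _ => mul_nonneg (by positivity) (ih n)

lemma dt_mono (a b : ℕ) (p q : List ℕ) : Monotone (dt a b p q) := by
  intro N N' h
  cases p with
  | nil =>
    rw [dt_nil, dt_nil]
    refine Finset.sum_le_sum_of_subset_of_nonneg (Finset.range_subset_range.2 h) fun n _ _ =>
      Finset.sum_nonneg fun m hm => mul_nonneg (wt_pos a b (Finset.mem_range.1 hm)).le (H_nonneg q m)
  | cons x p =>
    rw [dt_step, dt_step]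
    exact Finset.sum_le_sum_of_subset_of_nonneg (Finset.range_subset_range.2 h) fun n _ _ =>
      mul_nonneg (by positivity) (dt_nonneg a b p q n)

lemma dt_pos (a b : ℕ) (p q : List ℕ) : ∀ N, p.length + q.length + 2 ≤ N → 0 < dt a b p q N := by
  induction p with
  | nil =>
    intro N hN
    rw [List.length_nil, zero_add] at hN
    rw [dt_nil]
    refine Finset.sum_pos' (fun n _ => Finset.sum_nonneg fun m hm =>
      mul_nonneg (wt_pos a b (Finset.mem_range.1 hm)).le (H_nonneg q m)) ⟨N - 1, Finset.mem_range.2 (by omega), ?_⟩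
    refine Finset.sum_pos' (fun m hm => mul_nonneg (wt_pos a b (Finset.mem_range.1 hm)).le (H_nonneg q m))
      ⟨N - 2, Finset.mem_range.2 (by omega), ?_⟩
    exact mul_pos (wt_pos a b (by omega)) (H_pos_of q _ (by omega))
  | cons x p ih =>
    intro N hN
    rw [List.length_cons] at hN
    rw [dt_step]
    refine Finset.sum_pos' (fun n _ => mul_nonneg (by positivity) (dt_nonneg a b p q n))
      ⟨N - 1, Finset.mem_range.2 (by omega), ?_⟩
    exact mul_pos (by positivity) (ih (N - 1) (by omega))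

theorem val_transfer_lt {a b : ℕ} {p q : List ℕ} (h1 : Adm (p ++ (a + 1) :: b :: q))
    (h2 : Adm (p ++ a :: (b + 1) :: q)) : val (p ++ (a + 1) :: b :: q) < val (p ++ a :: (b + 1) :: q) := by
  have h3 : Tendsto (dt a b p q) atTop (𝓝 (val (p ++ a :: (b + 1) :: q) - val (p ++ (a + 1) :: b :: q))) :=
    (tendsto_H _ h2).sub (tendsto_H _ h1)
  have h4 := (dt_mono a b p q).ge_of_tendsto h3 (p.length + q.length + 2)
  have h5 := dt_pos a b p q _ le_rfl
  linarith

end Pool.Agent.L5helper5.PM
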