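import Mathlib
import Pool.Agent.L5helper5.PM.Trans
import Pool.Agent.L5helper5.SP.Count

/-!
# Admissible indices and binary words
-/

set_option autoImplicit false

namespace Pool.Agent.L5helper5.PM

open Pool.Agent.H447R2.MZ (Adm val)
open Pool.Agent.L5helper5.SP (L23 L23_cons L23_app Inc)

/-- the index of a word: the letter `3` increases the current entry, the letter `2` closes it -/
def cmp : ℕ → List ℕ → List ℕ
  | c, [] => [c]
  | c, a :: l => if a = 3 then cmp (c + 1) l else c :: cmp 1 l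

lemma cmp_nil (c : ℕ) : cmp c [] = [c] := by rw [cmp]

lemma cmp_three (c : ℕ) (l : List ℕ) : cmp c (3 :: l) = cmp (c + 1) l := by
  rw [cmp, if_pos rfl]

lemma cmp_two (c : ℕ) (l : List ℕ) : cmp c (2 :: l) = c :: cmp 1 l := by
  rw [cmp, if_neg (by norm_num)]

lemma cmp_head (l : List ℕ) (hl : L23 l) : ∃ (h : ℕ) (t : List ℕ), ∀ c, cmp c l = (h + c) :: t := by
  induction l with
  | nil => exact ⟨0, [], fun c => by rw [cmp_nil, zero_add]⟩
  | cons a l ih =>
    obtain ⟨h1, h2⟩ := L23_cons.1 hl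
    rcases h1 with rfl | rfl
    · exact ⟨0, cmp 1 l, fun c => by rw [cmp_two, zero_add]⟩
    · obtain ⟨h, t, ht⟩ := ih h2
      exact ⟨h + 1, t, fun c => by rw [cmp_three, ht]; congr 1; ring⟩

lemma cmp_ge (l : List ℕ) (hl : L23 l) : ∀ c, 1 ≤ c → ∀ x ∈ cmp c l, 1 ≤ x := by
  induction l with
  | nil => intro c hc x hx; rw [cmp_nil, List.mem_singleton] at hx; omega
  | cons a l ih =>
    obtain ⟨h1, h2⟩ := L23_cons.1 hl
    intro c hc x hx
    rcases h1 with rfl | rfl
    · rw [cmp_two, List.mem_cons] at hx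
      rcases hx with rfl | hx
      · exact hc
      · exact ih h2 1 le_rfl x hx
    · rw [cmp_three] at hx
      exact ih h2 (c + 1) (by omega) x hx

lemma cmp_adm {l : List ℕ} (hl : L23 l) {c : ℕ} (hc : 2 ≤ c) : Adm (cmp c l) := by
  refine ⟨fun x hx => cmp_ge l hl c (by omega) x hx, fun a t e => ?_⟩
  obtain ⟨h, t', ht⟩ := cmp_head l hl
  rw [ht c] at e
  have := (List.cons.inj e).1
  omega

lemma cmp_sum (l : List ℕ) (hl : L23 l) : ∀ c, (cmp c l).sum = c + l.length := by
  induction l with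
  | nil => intro c; rw [cmp_nil]; simp
  | cons a l ih =>
    obtain ⟨h1, h2⟩ := L23_cons.1 hl
    intro c
    rcases h1 with rfl | rfl
    · rw [cmp_two, List.sum_cons, ih h2, List.length_cons]
      ring
    · rw [cmp_three, ih h2, List.length_cons]
      ring

lemma cmp_app (p : List ℕ) (hp : L23 p) : ∀ c, 1 ≤ c → ∃ (P : List ℕ) (c' : ℕ), 1 ≤ c' ∧ (∀ l, cmp c (p ++ l) = P ++ cmp c' l) := by
  induction p with
  | nil => intro c hc; exact ⟨[], c, hc, fun l => rfl⟩
  | cons a p ih =>
    obtain ⟨h1, h2⟩ := L23_cons.1 hp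
    intro c hc
    rcases h1 with rfl | rfl
    · obtain ⟨P, c', hc', h⟩ := ih h2 1 le_rfl
      exact ⟨c :: P, c', hc', fun l => by rw [List.cons_append, cmp_two, h, List.cons_append]⟩
    · obtain ⟨P, c', hc', h⟩ := ih h2 (c + 1) (by omega)
      exact ⟨P, c', hc', fun l => by rw [List.cons_append, cmp_three, h]⟩

/-- the value of the index of a word -/
noncomputable def Fv (w : List ℕ) : ℝ := val (cmp 2 w)

theorem Fv_inc : Inc Fv := by
  intro p q hp hq
  obtain ⟨P, c', hc', h⟩ := cmp_app p hp 2 (by norm_num)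
  obtain ⟨b, t, ht⟩ := cmp_head q hq
  have h23 : L23 (2 :: 3 :: q) := L23_cons.2 ⟨Or.inl rfl, L23_cons.2 ⟨Or.inr rfl, hq⟩⟩
  have h32 : L23 (3 :: 2 :: q) := L23_cons.2 ⟨Or.inr rfl, L23_cons.2 ⟨Or.inl rfl, hq⟩⟩
  have e1 : cmp 2 (p ++ 3 :: 2 :: q) = P ++ (c' + 1) :: (b + 1) :: t := by
    rw [h, cmp_three, cmp_two, ht]
  have e2 : cmp 2 (p ++ 2 :: 3 :: q) = P ++ c' :: ((b + 1) + 1) :: t := by
    rw [h, cmp_two, cmp_three, ht]
  have a1 : Adm (cmp 2 (p ++ 3 :: 2 :: q)) := cmp_adm (L23_app hp h32) le_rfl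
  have a2 : Adm (cmp 2 (p ++ 2 :: 3 :: q)) := cmp_adm (L23_app hp h23) le_rfl
  unfold Fv
  rw [e1] at a1 ⊢
  rw [e2] at a2 ⊢
  exact val_transfer_lt a1 a2

lemma cmp_inj (l : List ℕ) (hl : L23 l) : ∀ (l' : List ℕ) (_ : L23 l') (c : ℕ), 1 ≤ c → cmp c l = cmp c l' → l = l' := by
  induction l with
  | nil =>
    intro l' hl' c hc h
    cases l' with
    | nil => rfl
    | cons a l' =>
      exfalso
      have h1 := cmp_sum [] (by intro x hx; simp at hx) c
      have h2 := cmp_sum (a :: l') hl' c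
      rw [h] at h1
      rw [h1] at h2
      simp at h2
  | cons a l ih =>
    intro l' hl' c hc h
    obtain ⟨h1, h2⟩ := L23_cons.1 hl
    cases l' with
    | nil =>
      exfalso
      have e1 := cmp_sum [] (by intro x hx; simp at hx) c
      have e2 := cmp_sum (a :: l) hl c
      rw [h] at e2
      rw [e1] at e2
      simp at e2
    | cons a' l' =>
      obtain ⟨h1', h2'⟩ := L23_cons.1 hl'
      obtain ⟨b, t, ht⟩ := cmp_head l h2
      obtain ⟨b', t', ht'⟩ := cmp_head l' h2'
      rcases h1 with rfl | rfl <;> rcases h1' with rfl | rfl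
      · rw [cmp_two, cmp_two] at h
        rw [ih h2 l' h2' 1 le_rfl (List.cons.inj h).2]
      · exfalso
        rw [cmp_two, cmp_three, ht'] at h
        have := (List.cons.inj h).1
        omega
      · exfalso
        rw [cmp_two, cmp_three, ht] at h
        have := (List.cons.inj h).1
        omega
      · rw [cmp_three, cmp_three] at h
        rw [ih h2 l' h2' (c + 1) (by omega) h]

lemma exists_cmp : ∀ (n s c : ℕ) (t : List ℕ), 1 ≤ c → c ≤ s → (∀ x ∈ t, 1 ≤ x) → s + t.sum = c + n →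
    ∃ l, L23 l ∧ l.length = n ∧ cmp c l = s :: t := by
  intro n
  induction n with
  | zero =>
    intro s c t hc hs ht hsum
    have h1 : t.sum = 0 := by omega
    have h2 : t = [] := by
      cases t with
      | nil => rfl
      | cons x t =>
        exfalso
        rw [List.sum_cons] at h1
        have := ht x (by simp)
        omega
    subst h2
    have h3 : s = c := by simpa using hsum
    exact ⟨[], by intro x hx; simp at hx, rfl, by rw [cmp_nil, h3]⟩
  | succ n ih =>
    intro s c t hc hs ht hsum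
    rcases Nat.lt_or_ge c s with h | h
    · obtain ⟨l, h1, h2, h3⟩ := ih s (c + 1) t (by omega) h ht (by omega)
      exact ⟨3 :: l, L23_cons.2 ⟨Or.inr rfl, h1⟩, by rw [List.length_cons, h2], by rw [cmp_three, h3]⟩
    · obtain rfl : s = c := by omega
      cases t with
      | nil => simp at hsum
      | cons x t =>
        rw [List.sum_cons] at hsum
        obtain ⟨l, h1, h2, h3⟩ := ih x 1 t le_rfl (ht x (by simp)) (fun y hy => ht y (by simp [hy])) (by omega)
        exact ⟨2 :: l, L23_cons.2 ⟨Or.inl rfl, h1⟩, by rw [List.length_cons, h2], by rw [cmp_two, h3]⟩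

/-- the words of length `n` in `2`, `3` -/
def WL : ℕ → Finset (List ℕ)
  | 0 => {[]}
  | n + 1 => (WL n).image (List.cons 2) ∪ (WL n).image (List.cons 3)

lemma mem_WL : ∀ (n : ℕ) (w : List ℕ), w ∈ WL n ↔ L23 w ∧ w.length = n := by
  intro n
  induction n with
  | zero =>
    intro w
    rw [WL, Finset.mem_singleton]
    constructor
    · rintro rfl
      exact ⟨by intro x hx; simp at hx, rfl⟩
    · rintro ⟨-, h⟩
      exact List.length_eq_zero_iff.1 h
  | succ n ih =>
    intro w
    rw [WL, Finset.mem_union, Finset.mem_image, Finset.mem_image]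
    constructor
    · rintro (⟨v, hv, rfl⟩ | ⟨v, hv, rfl⟩)
      · have := (ih v).1 hv
        exact ⟨L23_cons.2 ⟨Or.inl rfl, this.1⟩, by rw [List.length_cons, this.2]⟩
      · have := (ih v).1 hv
        exact ⟨L23_cons.2 ⟨Or.inr rfl, this.1⟩, by rw [List.length_cons, this.2]⟩
    · rintro ⟨h1, h2⟩
      cases w with
      | nil => simp at h2
      | cons a w =>
        obtain ⟨h3, h4⟩ := L23_cons.1 h1
        rw [List.length_cons] at h2
        rcases h3 with rfl | rfl
        · exact Or.inl ⟨w, (ih w).2 ⟨h4, by omega⟩, rfl⟩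
        · exact Or.inr ⟨w, (ih w).2 ⟨h4, by omega⟩, rfl⟩

lemma card_WL (n : ℕ) : (WL n).card = 2 ^ n := by
  induction n with
  | zero => rw [WL]; simp
  | succ n ih =>
    rw [WL, Finset.card_union_of_disjoint, Finset.card_image_of_injective _ List.cons_injective,
      Finset.card_image_of_injective _ List.cons_injective, ih]
    · ring
    · rw [Finset.disjoint_left]
      intro w h1 h2
      rw [Finset.mem_image] at h1 h2
      obtain ⟨v, -, rfl⟩ := h1
      obtain ⟨v', -, h3⟩ := h2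
      have := (List.cons.inj h3).1
      omega

/-- the admissible indices of weight `k` -/
def AI (k : ℕ) : Finset (List ℕ) := (WL (k - 2)).image (cmp 2)

lemma mem_AI {k : ℕ} (hk : 2 ≤ k) (u : List ℕ) : u ∈ AI k ↔ Adm u ∧ u.sum = k := by
  rw [AI, Finset.mem_image]
  constructor
  · rintro ⟨w, hw, rfl⟩
    obtain ⟨h1, h2⟩ := (mem_WL _ w).1 hw
    exact ⟨cmp_adm h1 le_rfl, by rw [cmp_sum w h1, h2]; omega⟩
  · rintro ⟨h1, h2⟩
    cases u with
    | nil => simp at h2; omega
    | cons s t =>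
      have hs : 2 ≤ s := h1.2 s t rfl
      obtain ⟨l, h3, h4, h5⟩ := exists_cmp (k - 2) s 2 t (by norm_num) hs (fun x hx => h1.1 x (by simp [hx]))
        (by rw [List.sum_cons] at h2; omega)
      exact ⟨l, (mem_WL _ l).2 ⟨h3, h4⟩, h5⟩

lemma card_AI (k : ℕ) : (AI k).card = 2 ^ (k - 2) := by
  rw [AI, Finset.card_image_of_injOn, card_WL]
  intro w hw w' hw' h
  rw [Finset.mem_coe, mem_WL] at hw hw'
  exact cmp_inj w hw.1 w' hw'.1 2 (by norm_num) h

end Pool.Agent.L5helper5.PM
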