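import Mathlib
import Pool.Agent.L5helper5.PM.Bits
import Pool.Agent.L5helper5.SP.Main

/-!
# Few admissible indices of the same weight have the same value
-/

set_option autoImplicit false

namespace Pool.Agent.L5helper5.PM

open Finset
open Pool.Agent.H447R2.MZ (Adm val)
open Pool.Agent.L5helper5.SP (L23 L23_cons L23_app Inc sk Sk wd ori exists_wd wd_congr ori_true fiber_le choose_le sk_Sk)

/-- the lists of pair sums of the words of length `n` -/
def SK : ℕ → Finset (List ℕ)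
  | 0 => {[]}
  | 1 => {[2], [3]}
  | n + 2 => (SK n).image (List.cons 4) ∪ ((SK n).image (List.cons 5) ∪ (SK n).image (List.cons 6))

lemma sk_mem : ∀ (n : ℕ) (w : List ℕ), w ∈ WL n → sk w ∈ SK n := by
  intro n
  induction n using Nat.strong_induction_on with
  | _ n ih =>
    intro w hw
    match n, ih with
    | 0, _ =>
      rw [mem_WL] at hw
      have := List.length_eq_zero_iff.1 hw.2
      subst this
      simp [sk, SK]
    | 1, _ =>
      rw [mem_WL] at hw
      obtain ⟨a, rfl⟩ := List.length_eq_one_iff.1 hw.2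
      have := hw.1 a (by simp)
      rcases this with rfl | rfl <;> simp [sk, SK]
    | (n + 2), ih =>
      rw [mem_WL] at hw
      obtain ⟨h1, h2⟩ := hw
      match w, h1, h2 with
      | a :: b :: l, h1, h2 =>
        obtain ⟨h3, h4⟩ := L23_cons.1 h1
        obtain ⟨h5, h6⟩ := L23_cons.1 h4
        have h7 := ih n (by omega) l ((mem_WL n l).2 ⟨h6, by simpa using h2⟩)
        rw [sk, SK, mem_union, mem_union, mem_image, mem_image, mem_image]
        rcases h3 with rfl | rfl <;> rcases h5 with rfl | rfl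
        · exact Or.inl ⟨_, h7, rfl⟩
        · exact Or.inr (Or.inl ⟨_, h7, rfl⟩)
        · exact Or.inr (Or.inl ⟨_, h7, rfl⟩)
        · exact Or.inr (Or.inr ⟨_, h7, rfl⟩)

lemma SK_Sk : ∀ (n : ℕ) (s : List ℕ), s ∈ SK n → Sk s := by
  intro n
  induction n using Nat.strong_induction_on with
  | _ n ih =>
    intro s hs
    match n, ih with
    | 0, _ =>
      rw [SK, mem_singleton] at hs
      subst hs
      exact Sk.nil
    | 1, _ =>
      rw [SK, mem_insert, mem_singleton] at hs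
      rcases hs with rfl | rfl
      · exact Sk.two
      · exact Sk.three
    | (n + 2), ih =>
      rw [SK, mem_union, mem_union, mem_image, mem_image, mem_image] at hs
      rcases hs with ⟨v, hv, rfl⟩ | ⟨v, hv, rfl⟩ | ⟨v, hv, rfl⟩
      · exact Sk.cons 4 v (Or.inl rfl) (ih n (by omega) v hv)
      · exact Sk.cons 5 v (Or.inr (Or.inl rfl)) (ih n (by omega) v hv)
      · exact Sk.cons 6 v (Or.inr (Or.inr rfl)) (ih n (by omega) v hv)

/-- the generating function of the number of mixed pairs -/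
lemma gen_le (x : ℝ) (hx : 0 ≤ x) : ∀ n : ℕ, ∑ s ∈ SK n, x ^ (s.count 5) ≤ 2 ^ (n % 2) * (2 + x) ^ (n / 2) := by
  intro n
  induction n using Nat.strong_induction_on with
  | _ n ih =>
    match n, ih with
    | 0, _ => simp [SK]
    | 1, _ =>
      rw [SK, sum_pair (by decide)]
      norm_num
    | (n + 2), ih =>
      have h1 := ih n (by omega)
      rw [SK]
      have h2 : ∀ (A B : Finset (List ℕ)) (f : List ℕ → ℝ), (∀ s, 0 ≤ f s) → ∑ s ∈ A ∪ B, f s ≤ ∑ s ∈ A, f s + ∑ s ∈ B, f s := by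
        intro A B f hf
        have h3 := sum_union_inter (s₁ := A) (s₂ := B) (f := f)
        have h4 : 0 ≤ ∑ s ∈ A ∩ B, f s := sum_nonneg fun s _ => hf s
        linarith
      have hpos : ∀ s : List ℕ, 0 ≤ x ^ (s.count 5) := fun s => by positivity
      refine (h2 _ _ _ hpos).trans ?_
      have h3 := h2 ((SK n).image (List.cons 5)) ((SK n).image (List.cons 6)) _ hpos
      have e4 : ∑ s ∈ (SK n).image (List.cons 4), x ^ (s.count 5) = ∑ s ∈ SK n, x ^ (s.count 5) := by
        rw [sum_image (fun a _ b _ h => List.cons_injective h)]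
        exact sum_congr rfl fun s _ => by simp
      have e5 : ∑ s ∈ (SK n).image (List.cons 5), x ^ (s.count 5) = x * ∑ s ∈ SK n, x ^ (s.count 5) := by
        rw [sum_image (fun a _ b _ h => List.cons_injective h), mul_sum]
        refine sum_congr rfl fun s _ => ?_
        rw [List.count_cons_self, pow_succ]
        ring
      have e6 : ∑ s ∈ (SK n).image (List.cons 6), x ^ (s.count 5) = ∑ s ∈ SK n, x ^ (s.count 5) := by
        rw [sum_image (fun a _ b _ h => List.cons_injective h)]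
        exact sum_congr rfl fun s _ => by simp
      rw [e4]
      rw [e5, e6] at h3
      have h4 : (n + 2) % 2 = n % 2 := by omega
      have h5 : (n + 2) / 2 = n / 2 + 1 := by omega
      rw [h4, h5, pow_succ]
      have h6 : (2 + x) * ∑ s ∈ SK n, x ^ (s.count 5) ≤ (2 + x) * (2 ^ (n % 2) * (2 + x) ^ (n / 2)) :=
        mul_le_mul_of_nonneg_left h1 (by linarith)
      nlinarith

lemma two_pow_split (n : ℕ) : (2 : ℝ) ^ (n % 2) * 4 ^ (n / 2) = 2 ^ n := by
  have h1 : (4 : ℝ) ^ (n / 2) = 2 ^ (2 * (n / 2)) := by rw [pow_mul]; norm_num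
  rw [h1, ← pow_add]
  congr 1
  omega

lemma T2 (n : ℕ) : ∑ s ∈ SK n, (2 : ℝ) ^ (s.count 5) ≤ 2 ^ n := by
  have h := gen_le 2 (by norm_num) n
  have h1 : (2 : ℝ) + 2 = 4 := by norm_num
  rw [h1, two_pow_split] at h
  exact h

lemma T3 (n : ℕ) : ∑ s ∈ SK n, (2 : ℝ) ^ (s.count 5) / ((s.count 5 : ℕ) + 1) ≤ 2 ^ n * (4 / (n + 1)) := by
  have h1 : ∫ x in (0 : ℝ)..2, ∑ s ∈ SK n, x ^ (s.count 5) = ∑ s ∈ SK n, (2 : ℝ) ^ (s.count 5 + 1) / ((s.count 5 : ℕ) + 1) := by
    rw [intervalIntegral.integral_finsetSum]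
    · refine sum_congr rfl fun s _ => ?_
      rw [integral_pow]
      simp
    · intro s _
      exact (continuous_pow _).intervalIntegrable _ _
  have h2 : ∫ x in (0 : ℝ)..2, (2 : ℝ) ^ (n % 2) * (2 + x) ^ (n / 2) =
      2 ^ (n % 2) * ((4 ^ (n / 2 + 1) - 2 ^ (n / 2 + 1)) / ((n / 2 : ℕ) + 1)) := by
    rw [intervalIntegral.integral_const_mul, intervalIntegral.integral_comp_add_left (fun x => x ^ (n / 2)), integral_pow]
    norm_num
  have h3 : ∫ x in (0 : ℝ)..2, ∑ s ∈ SK n, x ^ (s.count 5) ≤ ∫ x in (0 : ℝ)..2, (2 : ℝ) ^ (n % 2) * (2 + x) ^ (n / 2) := by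
    refine intervalIntegral.integral_mono_on (by norm_num) ?_ ?_ fun x hx => gen_le x hx.1 n
    · exact (continuous_finsetSum _ fun s _ => continuous_pow _).intervalIntegrable _ _
    · exact (Continuous.intervalIntegrable (by fun_prop) _ _)
  rw [h1, h2] at h3
  have h4 : ∑ s ∈ SK n, (2 : ℝ) ^ (s.count 5 + 1) / ((s.count 5 : ℕ) + 1) =
      2 * ∑ s ∈ SK n, (2 : ℝ) ^ (s.count 5) / ((s.count 5 : ℕ) + 1) := by
    rw [mul_sum]
    refine sum_congr rfl fun s _ => ?_
    rw [pow_succ]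
    ring
  rw [h4] at h3
  have h5 : (2 : ℝ) ^ (n % 2) * ((4 ^ (n / 2 + 1) - 2 ^ (n / 2 + 1)) / ((n / 2 : ℕ) + 1)) ≤
      2 * (2 ^ n * (4 / (n + 1))) := by
    have h6 : (4 : ℝ) ^ (n / 2 + 1) - 2 ^ (n / 2 + 1) ≤ 4 * 4 ^ (n / 2) := by
      have : (0 : ℝ) < 2 ^ (n / 2 + 1) := by positivity
      rw [pow_succ 4]
      linarith
    have h7 : ((n : ℝ) + 1) / 2 ≤ ((n / 2 : ℕ) : ℝ) + 1 := by
      have : n + 1 ≤ 2 * (n / 2 + 1) := by omega
      have h8 : ((n + 1 : ℕ) : ℝ) ≤ ((2 * (n / 2 + 1) : ℕ) : ℝ) := by exact_mod_cast this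
      push_cast at h8
      linarith
    have h9 : (4 ^ (n / 2 + 1) - 2 ^ (n / 2 + 1)) / (((n / 2 : ℕ) : ℝ) + 1) ≤ (4 * 4 ^ (n / 2)) / (((n : ℝ) + 1) / 2) :=
      div_le_div₀ (by positivity) h6 (by positivity) h7
    calc (2 : ℝ) ^ (n % 2) * ((4 ^ (n / 2 + 1) - 2 ^ (n / 2 + 1)) / ((n / 2 : ℕ) + 1))
        ≤ 2 ^ (n % 2) * ((4 * 4 ^ (n / 2)) / (((n : ℝ) + 1) / 2)) := mul_le_mul_of_nonneg_left h9 (by positivity)
      _ = 2 * ((2 ^ (n % 2) * 4 ^ (n / 2)) * (4 / (n + 1))) := by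
          field_simp
      _ = 2 * (2 ^ n * (4 / (n + 1))) := by rw [two_pow_split]
  linarith

/-- the words with given pair sums -/
lemma fiberL {F : List ℕ → ℝ} (hF : Inc F) {n : ℕ} {s : List ℕ} (hs : Sk s) (x : ℝ) :
    (((WL n).filter fun w => F w = x).filter fun w => sk w = s).card ≤
      (s.count 5).choose (s.count 5 / 2) := by
  classical
  refine le_trans ?_ (fiber_le hF hs x)
  have hsub : ((WL n).filter fun w => F w = x).filter (fun w => sk w = s) ⊆
      (univ.filter fun A : Finset (Fin (s.count 5)) => F (wd s (ori A)) = x).image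
        (fun A => wd s (ori A)) := by
    intro w hw
    rw [mem_filter, mem_filter, mem_WL] at hw
    obtain ⟨⟨⟨h1, -⟩, h2⟩, h3⟩ := hw
    obtain ⟨χ, hχ⟩ := exists_wd w h1
    rw [h3] at hχ
    have e : wd s (ori (univ.filter fun i : Fin (s.count 5) => χ i = true)) = w := by
      rw [← hχ]
      refine wd_congr hs _ _ fun i hi => ?_
      rw [Bool.eq_iff_iff]
      rw [ori_true _ (⟨i, hi⟩ : Fin (s.count 5)), mem_filter]
      simp
    rw [mem_image]
    refine ⟨univ.filter fun i : Fin (s.count 5) => χ i = true, ?_, e⟩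
    rw [mem_filter]
    exact ⟨mem_univ _, by rw [e, h2]⟩
  exact (card_le_card hsub).trans card_image_le

/-- **few words of length `n` have the same value** -/
theorem fewL {F : List ℕ → ℝ} (hF : Inc F) (n : ℕ) (x : ℝ) :
    (((WL n).filter fun w => F w = x).card : ℝ) ≤ 2 / √(n + 1) * 2 ^ n := by
  classical
  have h1 : ((WL n).filter fun w => F w = x).card ≤ ∑ s ∈ SK n, (s.count 5).choose (s.count 5 / 2) := by
    rw [card_eq_sum_card_fiberwise (f := sk) (t := SK n)]
    · exact sum_le_sum fun s hs => fiberL hF (SK_Sk n s hs) x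
    · intro w hw
      rw [mem_coe, mem_filter] at hw
      exact mem_coe.2 (sk_mem n w hw.1)
  set q : ℝ := √((n : ℝ) + 1) with hq
  have hq0 : 0 < q := Real.sqrt_pos.2 (by positivity)
  have hq2 : q * q = n + 1 := Real.mul_self_sqrt (by positivity)
  have h2 : ∀ s ∈ SK n, (((s.count 5).choose (s.count 5 / 2) : ℕ) : ℝ) ≤
      (q / 4) * (2 ^ (s.count 5) / ((s.count 5 : ℕ) + 1)) + (1 / q) * 2 ^ (s.count 5) := by
    intro s _
    refine (choose_le _).trans ?_
    set c : ℝ := ((s.count 5 : ℕ) : ℝ) + 1 with hc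
    have hc0 : 0 < c := by positivity
    set y : ℝ := √c with hy
    have hy0 : 0 < y := Real.sqrt_pos.2 hc0
    have hy2 : y * y = c := Real.mul_self_sqrt hc0.le
    have h3 : 1 / y ≤ q / 4 * (1 / c) + 1 / q := by
      rw [← hy2]
      have h4 : q / 4 * (1 / (y * y)) + 1 / q - 1 / y = (q - 2 * y) ^ 2 / (4 * q * (y * y)) := by
        field_simp
        ring
      have h5 : 0 ≤ (q - 2 * y) ^ 2 / (4 * q * (y * y)) := by positivity
      linarith
    calc (2 : ℝ) ^ (s.count 5) / y = 2 ^ (s.count 5) * (1 / y) := by ring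
      _ ≤ 2 ^ (s.count 5) * (q / 4 * (1 / c) + 1 / q) := mul_le_mul_of_nonneg_left h3 (by positivity)
      _ = _ := by ring
  calc (((WL n).filter fun w => F w = x).card : ℝ)
      ≤ ((∑ s ∈ SK n, (s.count 5).choose (s.count 5 / 2) : ℕ) : ℝ) := by exact_mod_cast h1
    _ = ∑ s ∈ SK n, (((s.count 5).choose (s.count 5 / 2) : ℕ) : ℝ) := by push_cast; rfl
    _ ≤ ∑ s ∈ SK n, ((q / 4) * (2 ^ (s.count 5) / ((s.count 5 : ℕ) + 1)) + (1 / q) * 2 ^ (s.count 5)) :=
        sum_le_sum h2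
    _ = (q / 4) * ∑ s ∈ SK n, ((2 : ℝ) ^ (s.count 5) / ((s.count 5 : ℕ) + 1)) + (1 / q) * ∑ s ∈ SK n, (2 : ℝ) ^ (s.count 5) := by
        rw [sum_add_distrib, mul_sum, mul_sum]
    _ ≤ (q / 4) * (2 ^ n * (4 / (n + 1))) + (1 / q) * 2 ^ n := by
        have := T2 n
        have := T3 n
        gcongr
    _ = 2 / q * 2 ^ n := by
        rw [← hq2]
        field_simp
        ring

/-- **few admissible indices of weight `k` have the same value** -/
theorem fewAI {k : ℕ} (hk : 2 ≤ k) (x : ℝ) :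
    (((AI k).filter fun u => Pool.Agent.H447R2.MZ.val u = x).card : ℝ) ≤ 2 / √((k : ℝ) - 1) * (AI k).card := by
  classical
  have h1 : ((AI k).filter fun u => Pool.Agent.H447R2.MZ.val u = x).card ≤ ((WL (k - 2)).filter fun w => Fv w = x).card := by
    rw [AI, filter_image]
    exact card_image_le
  have h2 := fewL Fv_inc (k - 2) x
  have h3 : (((k - 2 : ℕ)) : ℝ) + 1 = k - 1 := by
    rw [Nat.cast_sub hk]
    push_cast
    ring
  rw [h3] at h2
  rw [card_AI]
  push_cast
  exact le_trans (by exact_mod_cast h1) h2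

end Pool.Agent.L5helper5.PM
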