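import Mathlib

/-!
# Zeros of polynomials on products of sets with multiplicities
-/

set_option autoImplicit false

namespace Pool.Agent.L5helper5.PM

open Finset MvPolynomial

variable {α : Type*} [DecidableEq α]

/-- the Schwartz–Zippel lemma with multiplicities -/
theorem sz (F : α → ℝ) (D : ℕ) : ∀ (r : ℕ) (W : Fin r → Finset α) (μ : Fin r → ℝ)
    (_ : ∀ i, 0 ≤ μ i) (_ : ∀ i x, (((W i).filter fun w => F w = x).card : ℝ) ≤ μ i * (W i).card)
    (P : MvPolynomial (Fin r) ℝ) (_ : P ≠ 0) (_ : ∀ i, P.degreeOf i ≤ D),
    (((Fintype.piFinset W).filter fun w => eval (fun i => F (w i)) P = 0).card : ℝ) ≤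
      D * (∑ i, μ i) * ∏ i, ((W i).card : ℝ) := by
  classical
  intro r
  induction r with
  | zero =>
    intro W μ _ _ P hP _
    have h1 : (Fintype.piFinset W).filter (fun w => eval (fun i => F (w i)) P = 0) = ∅ := by
      rw [filter_eq_empty_iff]
      intro w _ h
      apply hP
      rw [eq_C_of_isEmpty P] at h ⊢
      rw [eval_C] at h
      rw [h, C_0]
    rw [h1, card_empty]
    simp
  | succ r ih =>
    intro W μ hμ hW P hP hD
    set Q := (finSuccEquiv ℝ r P).leadingCoeff with hQ
    have hPne : finSuccEquiv ℝ r P ≠ 0 := by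
      intro h
      exact hP ((map_eq_zero_iff _ (finSuccEquiv ℝ r).injective).1 h)
    have hQ0 : Q ≠ 0 := by rw [hQ, Ne, Polynomial.leadingCoeff_eq_zero]; exact hPne
    have hQD : ∀ i, Q.degreeOf i ≤ D := fun i =>
      (degreeOf_coeff_finSuccEquiv P i _).trans (hD i.succ)
    have h1 := ih (fun i => W i.succ) (fun i => μ i.succ) (fun i => hμ i.succ) (fun i x => hW i.succ x) Q hQ0 hQD
    set V : Finset (Fin r → α) := Fintype.piFinset fun i => W i.succ with hV
    set B := (Fintype.piFinset W).filter fun w => eval (fun i => F (w i)) P = 0 with hB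
    have hmap : ∀ w ∈ B, Fin.tail w ∈ V := by
      intro w hw
      rw [hB, mem_filter, Fintype.mem_piFinset] at hw
      rw [hV, Fintype.mem_piFinset]
      exact fun j => hw.1 j.succ
    set bad := V.filter fun v => eval (fun i => F (v i)) Q = 0 with hbad
    -- the fibers
    have hfib1 : ∀ v : Fin r → α, ((B.filter fun w => Fin.tail w = v).card : ℝ) ≤
        (((W 0).filter fun a => eval (Fin.cons (F a) fun i => F (v i) : Fin (r + 1) → ℝ) P = 0).card : ℝ) := by
      intro v
      have h2 : (B.filter fun w => Fin.tail w = v).card ≤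
          ((W 0).filter fun a => eval (Fin.cons (F a) fun i => F (v i) : Fin (r + 1) → ℝ) P = 0).card := by
        refine card_le_card_of_injOn (fun w => w 0) ?_ ?_
        · intro w hw
          rw [mem_coe, mem_filter, hB, mem_filter, Fintype.mem_piFinset] at hw
          obtain ⟨⟨h3, h4⟩, h5⟩ := hw
          rw [mem_coe, mem_filter]
          refine ⟨h3 0, ?_⟩
          rw [← h4, ← h5]
          congr 1
          congr 1
          funext i
          refine Fin.cases ?_ (fun j => ?_) i
          · rw [Fin.cons_zero]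
          · rw [Fin.cons_succ]; rfl
        · intro w hw w' hw' h
          rw [mem_coe, mem_filter] at hw hw'
          rw [← Fin.cons_self_tail w, ← Fin.cons_self_tail w', hw.2, hw'.2]
          congr 1
      exact_mod_cast h2
    have hfib : ∀ v ∈ V, ((B.filter fun w => Fin.tail w = v).card : ℝ) ≤
        (D * μ 0 * (W 0).card) + (if v ∈ bad then ((W 0).card : ℝ) else 0) := by
      intro v hv
      refine (hfib1 v).trans ?_
      by_cases hvb : v ∈ bad
      · rw [if_pos hvb]
        have h2 : (((W 0).filter fun a => eval (Fin.cons (F a) fun i => F (v i) : Fin (r + 1) → ℝ) P = 0).card : ℝ) ≤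
            (W 0).card := by exact_mod_cast card_filter_le _ _
        have h3 : (0 : ℝ) ≤ D * μ 0 * (W 0).card := by have := hμ 0; positivity
        linarith
      · rw [if_neg hvb, add_zero]
        have hQv : eval (fun i => F (v i)) Q ≠ 0 := fun h => hvb (by rw [hbad, mem_filter]; exact ⟨hv, h⟩)
        set p : Polynomial ℝ := Polynomial.map (eval fun i => F (v i)) (finSuccEquiv ℝ r P) with hp
        have hp0 : p ≠ 0 := by
          intro h
          have h4 : p.coeff (finSuccEquiv ℝ r P).natDegree = 0 := by rw [h, Polynomial.coeff_zero]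
          rw [hp, Polynomial.coeff_map] at h4
          exact hQv h4
        have hpd : p.natDegree ≤ D := by
          refine (Polynomial.natDegree_map_le).trans ?_
          rw [natDegree_finSuccEquiv]
          exact hD 0
        have hsub : (W 0).filter (fun a => eval (Fin.cons (F a) fun i => F (v i) : Fin (r + 1) → ℝ) P = 0) ⊆
            p.roots.toFinset.biUnion fun x => (W 0).filter fun a => F a = x := by
          intro a ha
          rw [mem_filter] at ha
          rw [mem_biUnion]
          refine ⟨F a, ?_, by rw [mem_filter]; exact ⟨ha.1, rfl⟩⟩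
          rw [Multiset.mem_toFinset, Polynomial.mem_roots hp0, Polynomial.IsRoot.def, hp, ← eval_eq_eval_mv_eval']
          exact ha.2
        have h5 : (p.roots.toFinset.card : ℝ) ≤ D := by
          have h6 : p.roots.toFinset.card ≤ D :=
            (Multiset.toFinset_card_le _).trans ((Polynomial.card_roots' p).trans hpd)
          exact_mod_cast h6
        calc (((W 0).filter fun a => eval (Fin.cons (F a) fun i => F (v i) : Fin (r + 1) → ℝ) P = 0).card : ℝ)
            ≤ ((∑ x ∈ p.roots.toFinset, ((W 0).filter fun a => F a = x).card : ℕ) : ℝ) := by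
              exact_mod_cast (card_le_card hsub).trans card_biUnion_le
          _ = ∑ x ∈ p.roots.toFinset, (((W 0).filter fun a => F a = x).card : ℝ) := by push_cast; rfl
          _ ≤ ∑ _x ∈ p.roots.toFinset, (μ 0 * (W 0).card) := sum_le_sum fun x _ => hW 0 x
          _ = p.roots.toFinset.card * (μ 0 * (W 0).card) := by rw [sum_const, nsmul_eq_mul]
          _ ≤ D * (μ 0 * (W 0).card) := by
              refine mul_le_mul_of_nonneg_right h5 ?_
              have := hμ 0
              positivity
          _ = D * μ 0 * (W 0).card := by ring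
    have hVc : (V.card : ℝ) = ∏ i : Fin r, ((W i.succ).card : ℝ) := by
      rw [hV, Fintype.card_piFinset]
      push_cast
      rfl
    have h2 : (B.card : ℝ) ≤ V.card * (D * μ 0 * (W 0).card) + bad.card * (W 0).card := by
      rw [card_eq_sum_card_fiberwise (f := Fin.tail) (t := V) (fun w hw => mem_coe.2 (hmap w (mem_coe.1 hw)))]
      push_cast
      calc ∑ v ∈ V, ((B.filter fun w => Fin.tail w = v).card : ℝ)
          ≤ ∑ v ∈ V, ((D * μ 0 * (W 0).card) + (if v ∈ bad then ((W 0).card : ℝ) else 0)) := sum_le_sum hfib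
        _ = V.card * (D * μ 0 * (W 0).card) + bad.card * (W 0).card := by
            have hfb : V.filter (fun v => v ∈ bad) = bad := by
              ext v
              rw [mem_filter]
              constructor
              · exact fun h => h.2
              · exact fun h => ⟨(mem_filter.1 h).1, h⟩
            rw [sum_add_distrib, sum_const, nsmul_eq_mul, ← sum_filter, hfb, sum_const, nsmul_eq_mul]
    refine h2.trans ?_
    rw [Fin.sum_univ_succ, Fin.prod_univ_succ, hVc]
    have hW0 : (0 : ℝ) ≤ (W 0).card := Nat.cast_nonneg _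
    have h3 := mul_le_mul_of_nonneg_right h1 hW0
    nlinarith

/-- finitely many polynomials -/
theorem sz_many (F : α → ℝ) (D : ℕ) {r : ℕ} (W : Fin r → Finset α) (μ : Fin r → ℝ)
    (hμ : ∀ i, 0 ≤ μ i) (hW : ∀ i x, (((W i).filter fun w => F w = x).card : ℝ) ≤ μ i * (W i).card)
    (S : Finset (MvPolynomial (Fin r) ℝ)) (hS : ∀ P ∈ S, P ≠ 0 ∧ ∀ i, P.degreeOf i ≤ D)
    (B : Finset (Fin r → α)) (hB : ∀ w ∈ B, (∀ i, w i ∈ W i) ∧ ∃ P ∈ S, eval (fun i => F (w i)) P = 0) :
    (B.card : ℝ) ≤ S.card * (D * (∑ i, μ i) * ∏ i, ((W i).card : ℝ)) := by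
  classical
  have hsub : B ⊆ S.biUnion fun P => (Fintype.piFinset W).filter fun w => eval (fun i => F (w i)) P = 0 := by
    intro w hw
    obtain ⟨h1, P, h2, h3⟩ := hB w hw
    rw [mem_biUnion]
    exact ⟨P, h2, by rw [mem_filter, Fintype.mem_piFinset]; exact ⟨h1, h3⟩⟩
  calc (B.card : ℝ) ≤ ((∑ P ∈ S, ((Fintype.piFinset W).filter fun w => eval (fun i => F (w i)) P = 0).card : ℕ) : ℝ) := by
        exact_mod_cast (card_le_card hsub).trans card_biUnion_le
    _ = ∑ P ∈ S, (((Fintype.piFinset W).filter fun w => eval (fun i => F (w i)) P = 0).card : ℝ) := by push_cast; rfl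
    _ ≤ ∑ _P ∈ S, (D * (∑ i, μ i) * ∏ i, ((W i).card : ℝ)) :=
        sum_le_sum fun P hP => sz F D r W μ hμ hW P (hS P hP).1 (hS P hP).2
    _ = _ := by rw [sum_const, nsmul_eq_mul]

/-- the integer polynomials of degree at most `D` in each variable and height at most `H` -/
noncomputable def PS (r D H : ℕ) : Finset (MvPolynomial (Fin r) ℤ) :=
  (Fintype.piFinset fun _ : Fin r → Fin (D + 1) => Icc (-(H : ℤ)) H).image fun c =>
    ∑ e, monomial (Finsupp.equivFunOnFinite.symm fun i => (e i : ℕ)) (c e)

lemma card_PS (r D H : ℕ) : (PS r D H).card ≤ (2 * H + 1) ^ (D + 1) ^ r := by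
  unfold PS
  refine card_image_le.trans (le_of_eq ?_)
  rw [Fintype.card_piFinset, prod_const, card_univ, Fintype.card_fun, Fintype.card_fin, Fintype.card_fin, Int.card_Icc]
  congr 1
  omega

lemma mem_PS {r D H : ℕ} (P : MvPolynomial (Fin r) ℤ) (hD : ∀ i, P.degreeOf i ≤ D) (hH : ∀ m, |P.coeff m| ≤ H) :
    P ∈ PS r D H := by
  classical
  unfold PS
  rw [mem_image]
  refine ⟨fun e => P.coeff (Finsupp.equivFunOnFinite.symm fun i => (e i : ℕ)), ?_, ?_⟩
  · rw [Fintype.mem_piFinset]
    exact fun e => mem_Icc.2 (abs_le.1 (hH _))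
  · ext m
    rw [coeff_sum]
    simp only [coeff_monomial]
    by_cases hm : ∀ i, m i < D + 1
    · rw [sum_eq_single (fun i => (⟨m i, hm i⟩ : Fin (D + 1)))]
      · have h1 : (Finsupp.equivFunOnFinite.symm fun i => ((⟨m i, hm i⟩ : Fin (D + 1)) : ℕ)) = m := by
          ext i
          simp
        rw [if_pos h1, h1]
      · intro e _ hne
        rw [if_neg]
        intro h
        apply hne
        funext i
        apply Fin.ext
        have h2 : m i = (e i : ℕ) := by rw [← h]; simp
        exact h2.symm
      · intro h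
        exact absurd (mem_univ _) h
    · push Not at hm
      obtain ⟨i, hi⟩ := hm
      have h1 : P.coeff m = 0 := by
        by_contra h
        have := monomial_le_degreeOf i (mem_support_iff.2 h)
        have := hD i
        omega
      rw [h1]
      refine sum_eq_zero fun e _ => ?_
      rw [if_neg]
      intro h
      have h2 : m i = (e i : ℕ) := by rw [← h]; simp
      have := (e i).2
      omega

end Pool.Agent.L5helper5.PM
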